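import Pool.Agent.Q70.ShE

/-!
# Shadowing properties on closed invariant sets containing the measure center

The definitions (`measureCenter`, `ASP`, `AASP`, `Mistake`, `AlmostSpec`) are in
`Pool.Agent.Q70.ShA`.
-/

set_option autoImplicit false

universe u

namespace Pool.Agent.Results.MP_7fd9c6_an.RestrictToCenter

open MeasureTheory Set Q70.Sh

/-- The almost specification property passes from a compact system to every closed invariant set
containing the measure center, while the average shadowing property and the asymptotic average
shadowing property do not: there is one compact system with both properties and one closed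
invariant set containing the measure center on which both fail. -/
theorem result :
    (∀ (X : Type u) [MetricSpace X] [CompactSpace X] [MeasurableSpace X] [BorelSpace X]
      (f : X → X) (_ : Continuous f) (A : Set X) (_ : IsClosed A) (hfA : MapsTo f A A)
      (_ : measureCenter f ⊆ A), AlmostSpec f → AlmostSpec (hfA.restrict f A A)) ∧
    (∃ (X : Type) (_ : MetricSpace X) (_ : CompactSpace X) (_ : MeasurableSpace X)
      (_ : BorelSpace X) (f : X → X) (A : Set X) (hfA : MapsTo f A A),
      Continuous f ∧ IsClosed A ∧ measureCenter f ⊆ A ∧ ASP f ∧ AASP f ∧
        ¬ ASP (hfA.restrict f A A) ∧ ¬ AASP (hfA.restrict f A A)) := by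
  refine ⟨?_, ?_⟩
  · intro X _ _ _ _ f hf A hA hfA hM h
    exact almostSpec_restrict hf hA hfA hM h
  · letI : MetricSpace (ℕ → Fin 3) := PiNat.metricSpace
    exact ⟨Xs, inferInstance, inferInstance, inferInstance, inferInstance, shX, AX, shX_AX,
      continuous_shX, isClosed_AX, center_sub, ASP_shX, AASP_shX, not_ASP_AX, not_AASP_AX⟩

end Pool.Agent.Results.MP_7fd9c6_an.RestrictToCenter
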